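import Pool.Agent.Q288.AP.Gal

/-!
# The McKay–Galois conjecture: approximate equality of the numbers of fixed characters suffices

`Wr G` is the wreath product of `G` with a group of order two, `WrN j G` the `j`-fold iterated one,
`p` is odd. If `σ` acts with odd order and fixes `x` characters of degree prime to `p` of `G`, then it
fixes `(x² + 3x)/2` such characters of `Wr G`, and the Sylow subgroups of `Wr G` have order `|P|²`.
Along the iterated wreath products a ratio `x / y ≠ 1` grows faster than every small power of `|P|`.
-/

set_option autoImplicit false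

namespace Pool.Agent.Results.MP_1ae3da_al.ApproximateEqualityDecides

open Pool.Agent.Q90.WR Pool.Agent.Q288.AP

/-- Let `p` be an odd prime and `σ` an automorphism of `ℂ` (for instance one in the group `𝓗`).
(1) Let `G` be a finite group and `P` a Sylow `p`-subgroup such that `σ` permutes the irreducible
characters of `G` and of `N_G(P)` with odd order. There is a bijection
`Irr_{p'}(G) → Irr_{p'}(N_G(P))` commuting with `σ` if and only if for all powers `τ` of `σ` and all
`ε > 0` there is a `C` such that for all `j` the numbers of `τ`-fixed characters of degree prime to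
`p` of the `j`-fold iterated wreath product of `G` with `C₂` and of the normalizer of a Sylow
`p`-subgroup `Q` of it agree up to the factor `C |Q|^ε`.
(2) Such bijections exist for all such `G` if and only if for every `ε > 0` there is a `C` such that
for all such `G` and all powers `τ` of `σ` the numbers of `τ`-fixed characters in `Irr_{p'}(G)` and
`Irr_{p'}(N_G(P))` agree up to the factor `C |P|^ε`. -/
theorem result (p : ℕ) [Fact p.Prime] (hp2 : p ≠ 2) (σ : ℂ ≃+* ℂ) :
    (∀ (G : Type) [Group G] [Finite G] (P : Sylow p G), OddOn σ G →
      OddOn σ (Subgroup.normalizer ((P : Subgroup G) : Set G)) →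
      (EquivariantBijection p σ G (Subgroup.normalizer ((P : Subgroup G) : Set G)) ↔
        ∀ k : ℕ, ∀ ε : ℝ, 0 < ε → ∃ C : ℝ, ∀ (j : ℕ) (Q : Sylow p (WrN j G)),
          Near C ε (Nat.card (Q : Subgroup (WrN j G))) (numFixed p (σ ^ k) (WrN j G))
            (numFixed p (σ ^ k)
              (Subgroup.normalizer ((Q : Subgroup (WrN j G)) : Set (WrN j G)))))) ∧
    ((∀ (G : Type) [Group G] [Finite G] (P : Sylow p G), OddOn σ G →
      OddOn σ (Subgroup.normalizer ((P : Subgroup G) : Set G)) →
      EquivariantBijection p σ G (Subgroup.normalizer ((P : Subgroup G) : Set G))) ↔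
    (∀ ε : ℝ, 0 < ε → ∃ C : ℝ, ∀ (G : Type) [Group G] [Finite G] (P : Sylow p G), OddOn σ G →
      OddOn σ (Subgroup.normalizer ((P : Subgroup G) : Set G)) → ∀ k : ℕ,
      Near C ε (Nat.card (P : Subgroup G)) (numFixed p (σ ^ k) G)
        (numFixed p (σ ^ k) (Subgroup.normalizer ((P : Subgroup G) : Set G))))) :=
  ⟨fun G _ _ P h1 h2 => one_group' hp2 G P h1 h2, all_groups' hp2⟩

end Pool.Agent.Results.MP_1ae3da_al.ApproximateEqualityDecides
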