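import Pool.Agent.Q108.OD.Mck

/-!
# The McKay–Galois conjecture and the characters with an odd number of Galois conjugates

`p` is an odd prime, `Γ` a group of field automorphisms of `ℂ` whose elements act with odd order on
`Irr_{p'}(G)` and `Irr_{p'}(N_G(P))`. The number of Galois conjugates of an irreducible character is
the degree of its field of values. Since the Galois group acts on the set of the `Γ`-fixed characters,
the number of the `Γ`-fixed characters has the parity of the number of those with an odd number of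
conjugates, and the parities in the iterated wreath products with `C₂` determine the numbers of
`Δ`-fixed characters for all `Δ ≤ Γ`, hence the two sets with the action of `Γ` up to isomorphism.
-/

set_option autoImplicit false

namespace Pool.Agent.Results.MP_1ae3da_al.OddDegreeFieldsDecide

open Pool.Agent.Q90.WR Pool.Agent.Q259.BW Pool.Agent.Q108.OD
open Pool.Agent.Helper884.IC (IsIrrChar)

/-- The number of irreducible characters of `G` of degree prime to `p` which are fixed by all
`σ ∈ Δ` and have an odd number of Galois conjugates. -/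
noncomputable def oddFixed (p : ℕ) (Δ : Set (ℂ ≃+* ℂ)) (G : Type) [Group G] : ℕ :=
  Nat.card {χ : G → ℂ // IsIrrChar χ ∧ PrimeDeg p χ ∧ (∀ σ ∈ Δ, FixedBy σ χ) ∧ Odd (numGal χ)}

theorem oddFixed_eq (p : ℕ) (Δ : Set (ℂ ≃+* ℂ)) (G : Type) [Group G] :
    oddFixed p Δ G = nfo p Δ G :=
  Nat.card_congr (Equiv.subtypeEquivRight fun χ =>
    ⟨fun h => ⟨⟨⟨h.1, h.2.1⟩, h.2.2.1⟩, h.2.2.2⟩, fun h => ⟨h.1.1.1, h.1.1.2, h.1.2, h.2⟩⟩)

/-- The elements of `Γ` act with odd order on `Irr_{p'}(G)` and on `Irr_{p'}(H)`. -/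
def ActsOdd (p : ℕ) (Γ : Set (ℂ ≃+* ℂ)) (G H : Type) [Group G] [Group H] : Prop :=
  OddOnS Γ (IrrPrime p G) ∧ OddOnS Γ (IrrPrime p H)

/-- Let `p` be an odd prime.
(1) Let `P` be a Sylow `p`-subgroup of the finite group `G` and `Γ` a group of automorphisms of `ℂ`
whose elements act with odd order on `Irr_{p'}(G)` and `Irr_{p'}(N_G(P))`. There is a bijection
`Irr_{p'}(G) → Irr_{p'}(N_G(P))` commuting with all elements of `Γ` if and only if for all subgroups
`Δ ≤ Γ`, all `j` with `2^j ≤ |G|` and all Sylow `p`-subgroups `Q` of the `j`-fold iterated wreath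
product of `G` with `C₂` the numbers of `Δ`-fixed characters of degree prime to `p` with an odd
number of Galois conjugates of this wreath product and of the normalizer of `Q` have the same parity.
(2) Let `X` be a class of groups closed under `G ↦ G ≀ C₂` and `T` a set of automorphisms of `ℂ` (for
instance `𝓗`). Such bijections exist for all `G` in `X`, all `P` and all such `Γ ⊆ T` if and only if
for all of these the numbers of `Γ`-fixed characters with an odd number of Galois conjugates in
`Irr_{p'}(G)` and `Irr_{p'}(N_G(P))` have the same parity. -/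
theorem result (p : ℕ) [Fact p.Prime] (hp2 : p ≠ 2) :
    (∀ (G : Type) [Group G] [Finite G] (P : Sylow p G) (Γ : Subgroup (ℂ ≃+* ℂ)),
      ActsOdd p Γ G (Subgroup.normalizer ((P : Subgroup G) : Set G)) →
      (EquivBij Γ (IrrPrime p G) (IrrPrime p (Subgroup.normalizer ((P : Subgroup G) : Set G))) ↔
        ∀ Δ : Subgroup (ℂ ≃+* ℂ), Δ ≤ Γ → ∀ j : ℕ, 2 ^ j ≤ Nat.card G →
          ∀ Q : Sylow p (WrN j G), oddFixed p Δ (WrN j G) ≡
            oddFixed p Δ (Subgroup.normalizer ((Q : Subgroup (WrN j G)) : Set (WrN j G)))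
            [MOD 2])) ∧
    (∀ (X : ∀ (G : Type) [Group G], Prop) (T : Set (ℂ ≃+* ℂ)),
      (∀ (G : Type) [Group G], X G → X (Wr G)) →
      ((∀ (G : Type) [Group G] [Finite G] (P : Sylow p G) (Γ : Subgroup (ℂ ≃+* ℂ)), X G →
        (Γ : Set (ℂ ≃+* ℂ)) ⊆ T → ActsOdd p Γ G (Subgroup.normalizer ((P : Subgroup G) : Set G)) →
        EquivBij Γ (IrrPrime p G)
          (IrrPrime p (Subgroup.normalizer ((P : Subgroup G) : Set G)))) ↔
      (∀ (G : Type) [Group G] [Finite G] (P : Sylow p G) (Γ : Subgroup (ℂ ≃+* ℂ)), X G →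
        (Γ : Set (ℂ ≃+* ℂ)) ⊆ T → ActsOdd p Γ G (Subgroup.normalizer ((P : Subgroup G) : Set G)) →
        oddFixed p Γ G ≡
          oddFixed p Γ (Subgroup.normalizer ((P : Subgroup G) : Set G)) [MOD 2]))) := by
  have hone : ∀ (G : Type) [Group G] [Finite G] (P : Sylow p G) (Γ : Subgroup (ℂ ≃+* ℂ)),
      ActsOdd p Γ G (Subgroup.normalizer ((P : Subgroup G) : Set G)) →
      (EquivBij Γ (IrrPrime p G) (IrrPrime p (Subgroup.normalizer ((P : Subgroup G) : Set G))) ↔
        ∀ Δ : Subgroup (ℂ ≃+* ℂ), Δ ≤ Γ → ∀ j : ℕ, 2 ^ j ≤ Nat.card G →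
          ∀ Q : Sylow p (WrN j G), oddFixed p Δ (WrN j G) ≡
            oddFixed p Δ (Subgroup.normalizer ((Q : Subgroup (WrN j G)) : Set (WrN j G)))
            [MOD 2]) := by
    intro G _ _ P Γ h
    simp only [oddFixed_eq]
    exact one_S hp2 G P Γ h.1 h.2
  refine ⟨hone, fun X T hX => ⟨fun h G _ _ P Γ hG hT ho => ?_, fun h G _ _ P Γ hG hT ho => ?_⟩⟩
  · have h1 := num_of_bij (h G P Γ hG hT ho) (Set.Subset.refl _)
    rw [oddFixed_eq, oddFixed_eq]
    refine (nf_parity _).symm.trans (Nat.ModEq.trans ?_ (nf_parity _))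
    unfold nf
    rw [h1]
  · have hXj : ∀ (j : ℕ) (K : Type) [Group K], X K → X (WrN j K) := by
      intro j
      induction j with
      | zero => exact fun K _ h => h
      | succ j ih => exact fun K _ hK => ih (Wr K) (hX K hK)
    rw [hone G P Γ ho]
    intro Δ hΔ j _ Q
    obtain ⟨o1, o2⟩ := odd_S hp2 j G P (fun σ hσ => ho.1 σ (hΔ hσ)) (fun σ hσ => ho.2 σ (hΔ hσ)) Q
    exact h (WrN j G) Q Δ (hXj j G hG) (Set.Subset.trans hΔ hT) ⟨o1, o2⟩

end Pool.Agent.Results.MP_1ae3da_al.OddDegreeFieldsDecide
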