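import Pool.Agent.Q99.RC.Orb

/-!
# The McKay–Galois conjecture: counting the Galois orbits approximately is enough

Let `σ` raise the roots of unity of order prime to `p` to the power `p^e`, `e ≥ 1`, and let `C` be cyclic
of order `m = p^(ej) - 1`.  `σ^i` fixes all irreducible characters of `C` if `j ∣ i` and at most half of
them otherwise.  For a Sylow `p`-subgroup `P` of `G` the group `P × 1` is one of `G × C^r`, with
normalizer `N_G(P) × C^r`.  By Burnside's lemma the difference of the numbers of `σ`-orbits for `G × C^r`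
is the mean over `i` of `f(i) z(i)^r`, where `f(i)` is the difference of the numbers of `σ^i`-fixed
characters for `G` and `z(i)` the number of `σ^i`-fixed characters of `C`.  For `r → ∞` the terms with
`j ∣ i` dominate, so the sum of `f` over the multiples of `j` is `0`, for all `j ≥ 1`, hence `f = 0`.
-/

set_option autoImplicit false

namespace Pool.Agent.Results.MP_1ae3da_al.OrbitCountsDecide

open Pool.Agent.Q99.RC
open Pool.Agent.Q90.WR (IrrPrime EquivariantBijection numFixed FixedBy gal gal_inj gal_iter fixedBy_iff'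
  fixedBy_pow numFixed_of_bij irr_gal gal_prime)
open Pool.Agent.Helper884.IC (IsIrrChar)

/-- The class `X` of finite groups is closed under direct products with the cyclic groups of order prime
to `p`. -/
def ClosedUnderTests (p : ℕ) (X : ∀ (G : Type) [Group G], Prop) : Prop :=
  ∀ (G : Type) [Group G] [Finite G] (m : ℕ), X G → 0 < m → ¬ p ∣ m → X (G × Multiplicative (ZMod m))

/-- `A` holds for all Sylow `p`-subgroups `P` of the finite groups `G` in `X`, and `N = N_G(P)`. -/
def All (p : ℕ) (X : ∀ (G : Type) [Group G], Prop)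
    (A : ∀ (G N : Type) [Group G] [Group N], Prop) : Prop :=
  ∀ (G : Type) [Group G] [Finite G] (P : Sylow p G), X G →
    A G (Subgroup.normalizer ((P : Subgroup G) : Set G))

/-- `|Irr_{p'}(G)|` -/
noncomputable def total (p : ℕ) (G : Type) [Group G] : ℕ := Nat.card (IrrPrime p G)

section

variable {p : ℕ} {σ : ℂ ≃+* ℂ}

theorem total_eq (G : Type) [Group G] : total p G = numFixed p (σ ^ 0) G := by
  unfold total numFixed
  refine Nat.card_congr (Equiv.subtypeEquivRight fun χ => ?_)
  constructor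
  · exact fun h => ⟨h.1, h.2, fun g => rfl⟩
  · exact fun h => ⟨h.1, h.2.1⟩

theorem total_pos [Fact p.Prime] (G : Type) [Group G] [Finite G] : 0 < total p G := by
  unfold total
  rw [Nat.card_pos_iff]
  refine ⟨⟨⟨fun _ => 1, triv_irr G, 1, by simp, ?_⟩⟩, inferInstance⟩
  exact (Fact.out : p.Prime).one_lt.not_ge ∘ Nat.le_of_dvd one_pos

theorem fixed_gcd {G : Type} {χ : G → ℂ} {L k : ℕ} (h : FixedBy (σ ^ L) χ) :
    FixedBy (σ ^ k) χ ↔ FixedBy (σ ^ (k.gcd L)) χ := by
  rw [fixedBy_iff', fixedBy_iff', ← gal_iter, ← gal_iter]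
  have hL : Function.IsPeriodicPt (gal σ) L χ := by
    change (gal σ)^[L] χ = χ
    rw [gal_iter]
    exact fixedBy_iff'.1 h
  constructor
  · intro hk
    exact Function.IsPeriodicPt.gcd hk hL
  · intro hk
    exact Function.IsPeriodicPt.trans_dvd hk (Nat.gcd_dvd_left k L)

theorem numFixed_gcd {G : Type} [Group G] {L : ℕ} (h : AllFixed (σ ^ L) G) (k : ℕ) :
    numFixed p (σ ^ k) G = numFixed p (σ ^ (k.gcd L)) G := by
  unfold numFixed
  refine Nat.card_congr (Equiv.subtypeEquivRight fun χ => ?_)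
  refine and_congr_right fun hχ => and_congr_right fun _ => ?_
  exact fixed_gcd (h χ hχ)

theorem allFixed_mul {G : Type} [Group G] {L : ℕ} (h : AllFixed (σ ^ L) G) (j : ℕ) :
    AllFixed (σ ^ (L * j)) G := by
  intro χ hχ
  rw [pow_mul]
  exact fixedBy_pow (h χ hχ) j

/-- a function of the greatest common divisor with `L` whose sums over the multiples of all `j` vanish
is zero -/
theorem zero_of_sums {L : ℕ} (hL : 0 < L) {f : ℕ → ℤ} (hf : ∀ k, f k = f (k.gcd L))
    (h : ∀ j, 0 < j → ∑ i ∈ Finset.range L, f (j * i) = 0) (k : ℕ) : f k = 0 := by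
  have key : ∀ n d : ℕ, d * n = L → f d = 0 := by
    intro n
    induction n using Nat.strong_induction_on with
    | _ n ih =>
      intro d hd
      have hd0 : 0 < d := Nat.pos_of_ne_zero (by rintro rfl; omega)
      have hn0 : 0 < n := Nat.pos_of_ne_zero (by rintro rfl; omega)
      have h1 := h d hd0
      have h2 : ∀ i ∈ Finset.range L, f (d * i) = if i.gcd n = 1 then f d else 0 := by
        intro i _
        rw [hf (d * i), ← hd, Nat.gcd_mul_left]
        split_ifs with hg
        · rw [hg, mul_one]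
        · have h3 : i.gcd n ∣ n := Nat.gcd_dvd_right i n
          obtain ⟨c, hc⟩ := h3
          have hg0 : 0 < i.gcd n := Nat.gcd_pos_of_pos_right i hn0
          refine ih c ?_ _ ?_
          · have h4 : 2 ≤ i.gcd n := by omega
            have hc0 : 0 < c := Nat.pos_of_ne_zero (by rintro rfl; omega)
            calc c < 2 * c := by omega
              _ ≤ i.gcd n * c := Nat.mul_le_mul_right c h4
              _ = n := hc.symm
          · rw [mul_assoc, ← hc]
            exact hd
      rw [Finset.sum_congr rfl h2, ← Finset.sum_filter, Finset.sum_const, nsmul_eq_mul] at h1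
      rcases mul_eq_zero.1 h1 with h5 | h5
      · exfalso
        have h6 : ((Finset.range L).filter fun i => i.gcd n = 1).card ≠ 0 := by
          apply Finset.card_ne_zero_of_mem (a := 1 % L)
          rw [Finset.mem_filter, Finset.mem_range]
          refine ⟨Nat.mod_lt _ hL, ?_⟩
          rcases Nat.lt_or_ge 1 L with h7 | h7
          · rw [Nat.mod_eq_of_lt h7, Nat.gcd_one_left]
          · have h8 : L = 1 := by omega
            have h9 : n = 1 := by
              rw [h8] at hd
              exact (mul_eq_one.1 hd).2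
            rw [h9, Nat.gcd_one_right]
        exact h6 (by exact_mod_cast h5)
      · exact h5
  rw [hf k]
  obtain ⟨n, hn⟩ := Nat.gcd_dvd_right k L
  exact key n _ hn.symm

/-- the estimate -/
theorem numFixed_eq [Fact p.Prime] (hp2 : p ≠ 2) {e : ℕ} (he : 0 < e) (hσ : PPower p e σ)
    {X : ∀ (G : Type) [Group G], Prop} (hX : ClosedUnderTests p X)
    (h : ∀ ε : ℝ, 0 < ε → ∃ k₀ : ℕ, All p X (fun G N _ _ => k₀ ≤ total p G →
      |(orbits p σ G : ℝ) - orbits p σ N| ≤ ε * total p G)) :
    All p X (fun G N _ _ => ∀ k : ℕ, numFixed p (σ ^ k) G = numFixed p (σ ^ k) N) := by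
  have hp : p.Prime := Fact.out
  intro G _ _ P hG
  obtain ⟨L₁, hL₁, h1⟩ := exists_period (G := G) σ
  obtain ⟨L₂, hL₂, h2⟩ := exists_period
    (G := (Subgroup.normalizer ((P : Subgroup G) : Set G))) σ
  set N := (Subgroup.normalizer ((P : Subgroup G) : Set G)) with hN
  set L₀ := L₁ * L₂ with hL₀
  have hL₀pos : 0 < L₀ := Nat.mul_pos hL₁ hL₂
  have a1 : AllFixed (σ ^ L₀) G := allFixed_mul h1 L₂
  have a2 : AllFixed (σ ^ L₀) N := by
    rw [hL₀, mul_comm]
    exact allFixed_mul h2 L₁
  let f : ℕ → ℤ := fun k => numFixed p (σ ^ k) G - numFixed p (σ ^ k) N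
  have hf : ∀ k, f k = f (k.gcd L₀) := fun k => by
    simp only [f]
    rw [numFixed_gcd a1 k, numFixed_gcd a2 k]
  suffices hs : ∀ j, 0 < j → ∑ i ∈ Finset.range L₀, f (j * i) = 0 by
    intro k
    have := zero_of_sums hL₀pos hf hs k
    simp only [f] at this
    omega
  intro j hj
  by_contra hne
  set F := ∑ i ∈ Finset.range L₀, f (j * i) with hF
  have hFabs : (1 : ℝ) ≤ |(F : ℝ)| := by
    have : 1 ≤ |F| := Int.one_le_abs hne
    exact_mod_cast this
  -- the test group
  set m := (p ^ e) ^ j - 1 with hm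
  have hq : 2 < p ^ e := by
    have h3 : 3 ≤ p := by
      have := hp.two_le
      omega
    calc 2 < p := h3
      _ = p ^ 1 := (pow_one p).symm
      _ ≤ p ^ e := Nat.pow_le_pow_right hp.pos he
  have hm2 : 2 ≤ m := by
    have : p ^ e ≤ (p ^ e) ^ j := Nat.le_self_pow hj.ne' _
    omega
  have : NeZero m := ⟨by omega⟩
  have hcard : Nat.card (Multiplicative (ZMod m)) = m := by
    rw [Nat.card_congr Multiplicative.toAdd, Nat.card_zmod]
  have hpm : ¬ p ∣ m := test_card he hj
  set k := total p G with hk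
  have hkpos : 0 < k := total_pos G
  set L := L₀ * j with hL
  have hLpos : 0 < L := Nat.mul_pos hL₀pos hj
  set C := ∑ i ∈ Finset.range L, |(f i : ℝ)| with hC
  have hC0 : 0 ≤ C := Finset.sum_nonneg fun _ _ => abs_nonneg _
  obtain ⟨c, hc⟩ := exists_nat_gt (4 * C)
  obtain ⟨k₀, hk₀⟩ := h (1 / (4 * L * k)) (by positivity)
  set r := k₀ + c with hr
  obtain ⟨K, _, _, S, hK, t1, t2, t3, t4⟩ := tower (p := p) (X := X) (Multiplicative (ZMod m))
    (by rw [hcard]; exact hpm) (fun K _ _ hK => hX K m hK (by omega) hpm) P hG r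
  have hall : ∀ i, j ∣ i → AllFixed (σ ^ i) (Multiplicative (ZMod m)) := fun i hi =>
    cyc_all he hj hσ hi
  have z1 : ∀ i, j ∣ i → numFixed p (σ ^ i) (Multiplicative (ZMod m)) = m := fun i hi => by
    rw [numFixed_all hp (hall i hi), hcard]
  have z2 : ∀ i, ¬ j ∣ i → 2 * numFixed p (σ ^ i) (Multiplicative (ZMod m)) ≤ m := fun i hi =>
    cyc_half he hj hσ hi
  have b1 := orbits_mul (p := p) hLpos (t3 _ (allFixed_mul a1 j) (hall L (Dvd.intro_left _ rfl)))
  have b2 := orbits_mul (p := p) hLpos (t4 _ (allFixed_mul a2 j) (hall L (Dvd.intro_left _ rfl)))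
  have hT : total p K = k * m ^ r := by
    rw [total_eq, t1, z1 0 (dvd_zero j), hk, total_eq]
  have hbig : k₀ ≤ total p K := by
    rw [hT]
    calc k₀ ≤ r := Nat.le_add_right _ _
      _ ≤ 2 ^ r := Nat.lt_two_pow_self.le
      _ ≤ m ^ r := Nat.pow_le_pow_left hm2 r
      _ ≤ k * m ^ r := Nat.le_mul_of_pos_left _ hkpos
  have b3 := hk₀ K S hK hbig
  -- the sum
  have hsum : (L : ℝ) * ((orbits p σ K : ℝ) -
      orbits p σ (Subgroup.normalizer ((S : Subgroup K) : Set K))) =
      ∑ i ∈ Finset.range L, (f i : ℝ) * (numFixed p (σ ^ i) (Multiplicative (ZMod m)) : ℝ) ^ r := by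
    have e1 : (L : ℝ) * orbits p σ K = ((L * orbits p σ K : ℕ) : ℝ) := by push_cast; rfl
    have e2 : (L : ℝ) * orbits p σ (Subgroup.normalizer ((S : Subgroup K) : Set K)) =
        ((L * orbits p σ (Subgroup.normalizer ((S : Subgroup K) : Set K)) : ℕ) : ℝ) := by
      push_cast; rfl
    rw [mul_sub, e1, e2, b1, b2]
    push_cast
    rw [← Finset.sum_sub_distrib]
    refine Finset.sum_congr rfl fun i _ => ?_
    rw [t1, t2]
    simp only [f]
    push_cast
    ring
  have hsplit : ∑ i ∈ Finset.range L, (f i : ℝ) *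
      (numFixed p (σ ^ i) (Multiplicative (ZMod m)) : ℝ) ^ r =
      (F : ℝ) * (m : ℝ) ^ r + ∑ i ∈ (Finset.range L).filter (fun i => ¬ j ∣ i), (f i : ℝ) *
        (numFixed p (σ ^ i) (Multiplicative (ZMod m)) : ℝ) ^ r := by
    rw [← Finset.sum_filter_add_sum_filter_not (Finset.range L) (fun i => j ∣ i)]
    congr 1
    rw [hF]
    push_cast
    rw [Finset.sum_mul]
    symm
    refine Finset.sum_nbij (fun i => j * i) ?_ ?_ ?_ ?_
    · intro i hi
      rw [Finset.mem_range] at hi
      rw [Finset.mem_filter, Finset.mem_range]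
      exact ⟨by rw [hL, mul_comm L₀ j]; exact Nat.mul_lt_mul_of_pos_left hi hj, Dvd.intro _ rfl⟩
    · intro a _ b _ hab
      exact Nat.eq_of_mul_eq_mul_left hj hab
    · intro i hi
      rw [Finset.mem_coe, Finset.mem_filter, Finset.mem_range] at hi
      obtain ⟨hi1, l, rfl⟩ := hi
      refine ⟨l, ?_, rfl⟩
      rw [Finset.mem_coe, Finset.mem_range]
      rw [hL, mul_comm L₀ j] at hi1
      exact Nat.lt_of_mul_lt_mul_left hi1
    · intro i _
      rw [z1 _ (Dvd.intro _ rfl)]
  have hrest : |∑ i ∈ (Finset.range L).filter (fun i => ¬ j ∣ i), (f i : ℝ) *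
      (numFixed p (σ ^ i) (Multiplicative (ZMod m)) : ℝ) ^ r| ≤ (m : ℝ) ^ r / 4 := by
    have hmr : (0 : ℝ) < (m : ℝ) ^ r := by
      have : (0 : ℝ) < m := by exact_mod_cast (show 0 < m by omega)
      positivity
    have h2r : (0 : ℝ) < (2 : ℝ) ^ r := by positivity
    have e1 : ∀ i ∈ (Finset.range L).filter (fun i => ¬ j ∣ i), |(f i : ℝ) *
        (numFixed p (σ ^ i) (Multiplicative (ZMod m)) : ℝ) ^ r| ≤
        |(f i : ℝ)| * ((m : ℝ) ^ r / 2 ^ r) := by
      intro i hi
      rw [abs_mul]
      refine mul_le_mul_of_nonneg_left ?_ (abs_nonneg _)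
      rw [abs_of_nonneg (by positivity), le_div_iff₀ h2r, ← mul_pow]
      refine pow_le_pow_left₀ (by positivity) ?_ r
      have := z2 i (Finset.mem_filter.1 hi).2
      rw [mul_comm]
      exact_mod_cast this
    calc _ ≤ ∑ i ∈ (Finset.range L).filter (fun i => ¬ j ∣ i), |(f i : ℝ) *
          (numFixed p (σ ^ i) (Multiplicative (ZMod m)) : ℝ) ^ r| := Finset.abs_sum_le_sum_abs _ _
      _ ≤ ∑ i ∈ (Finset.range L).filter (fun i => ¬ j ∣ i), |(f i : ℝ)| * ((m : ℝ) ^ r / 2 ^ r) :=
          Finset.sum_le_sum e1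
      _ ≤ C * ((m : ℝ) ^ r / 2 ^ r) := by
          rw [← Finset.sum_mul]
          refine mul_le_mul_of_nonneg_right ?_ (by positivity)
          exact Finset.sum_le_sum_of_subset_of_nonneg (Finset.filter_subset _ _)
            fun _ _ _ => abs_nonneg _
      _ ≤ (m : ℝ) ^ r / 4 := by
          have e2 : 4 * C ≤ 2 ^ r := by
            calc 4 * C ≤ c := hc.le
              _ ≤ (r : ℝ) := by
                rw [hr]
                push_cast
                have : (0 : ℝ) ≤ k₀ := Nat.cast_nonneg _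
                linarith
              _ ≤ 2 ^ r := by exact_mod_cast (Nat.lt_two_pow_self (n := r)).le
          rw [mul_div_assoc', div_le_div_iff₀ h2r (by norm_num)]
          nlinarith
  have hfin : |(L : ℝ) * ((orbits p σ K : ℝ) -
      orbits p σ (Subgroup.normalizer ((S : Subgroup K) : Set K)))| ≤ (m : ℝ) ^ r / 4 := by
    rw [abs_mul, abs_of_nonneg (by positivity)]
    calc (L : ℝ) * |(orbits p σ K : ℝ) -
          orbits p σ (Subgroup.normalizer ((S : Subgroup K) : Set K))| ≤
          L * (1 / (4 * L * k) * total p K) := by gcongr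
      _ = (m : ℝ) ^ r / 4 := by
          rw [hT]
          push_cast
          have : (L : ℝ) ≠ 0 := by exact_mod_cast hLpos.ne'
          have : (k : ℝ) ≠ 0 := by exact_mod_cast hkpos.ne'
          field_simp
  rw [hsum, hsplit] at hfin
  have hmr : (0 : ℝ) < (m : ℝ) ^ r := by
    have : (0 : ℝ) < m := by exact_mod_cast (show 0 < m by omega)
    positivity
  have hlow : (m : ℝ) ^ r ≤ |(F : ℝ) * (m : ℝ) ^ r| := by
    rw [abs_mul, abs_of_pos hmr]
    exact le_mul_of_one_le_left hmr.le hFabs
  set R := ∑ i ∈ (Finset.range L).filter (fun i => ¬ j ∣ i), (f i : ℝ) *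
      (numFixed p (σ ^ i) (Multiplicative (ZMod m)) : ℝ) ^ r
  have htri : |(F : ℝ) * (m : ℝ) ^ r| ≤ |(F : ℝ) * (m : ℝ) ^ r + R| + |R| := by
    have := abs_sub ((F : ℝ) * (m : ℝ) ^ r + R) R
    rwa [add_sub_cancel_right] at this
  linarith

/-- the number of orbits is determined by the bijection -/
theorem orbits_of_bij {G H : Type} [Group G] [Finite G] [Group H] [Finite H]
    (h : EquivariantBijection p σ G H) : orbits p σ G = orbits p σ H := by
  obtain ⟨L₁, hL₁, h1⟩ := exists_period (G := G) σ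
  obtain ⟨L₂, hL₂, h2⟩ := exists_period (G := H) σ
  have hL : 0 < L₁ * L₂ := Nat.mul_pos hL₁ hL₂
  have e1 := orbits_mul (p := p) hL (allFixed_mul h1 L₂)
  have e2 := orbits_mul (p := p) (σ := σ) (G := H) hL
    (by rw [mul_comm]; exact allFixed_mul h2 L₁)
  have e3 : ∑ i ∈ Finset.range (L₁ * L₂), numFixed p (σ ^ i) G =
      ∑ i ∈ Finset.range (L₁ * L₂), numFixed p (σ ^ i) H :=
    Finset.sum_congr rfl fun i _ => numFixed_of_bij G H h i
  rw [e3, ← e2] at e1
  exact Nat.eq_of_mul_eq_mul_left hL e1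

end

/-- Let `p` be an odd prime and `σ` an automorphism of `ℂ` in the group `𝓗` of the conjecture which is not
trivial on the roots of unity of order prime to `p`: `σ ξ = ξ^(p^e)` for these, `e ≥ 1`.  Let `X` be a
class of finite groups closed under direct products with cyclic groups of order prime to `p` (for instance
all finite groups).  `G` runs through the groups in `X`, `P` through the Sylow `p`-subgroups of `G`,
`N = N_G(P)`.  Equivalent are:
* for all `G`, `P` there is a bijection `Irr_{p'}(G) → Irr_{p'}(N)` which commutes with `σ`;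
* for all `G`, `P` the numbers of `σ`-orbits on `Irr_{p'}(G)` and on `Irr_{p'}(N)` are equal;
* for each `ε > 0` they differ by at most `ε |Irr_{p'}(G)|` if `|Irr_{p'}(G)|` is large enough;
* for all `G`, `P` and all `k` the numbers of `σ^k`-fixed characters in `Irr_{p'}(G)` and `Irr_{p'}(N)`
  are equal. -/
theorem result (p : ℕ) [Fact p.Prime] (hp2 : p ≠ 2) (σ : ℂ ≃+* ℂ) (e : ℕ) (he : 0 < e)
    (hσ : ∀ (ξ : ℂ) (m : ℕ), ¬ p ∣ m → ξ ^ m = 1 → σ ξ = ξ ^ p ^ e)
    (X : ∀ (G : Type) [Group G], Prop) (hX : ClosedUnderTests p X) :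
    List.TFAE [
      All p X (fun G N _ _ => EquivariantBijection p σ G N),
      All p X (fun G N _ _ => orbits p σ G = orbits p σ N),
      ∀ ε : ℝ, 0 < ε → ∃ k₀ : ℕ, All p X (fun G N _ _ => k₀ ≤ total p G →
        |(orbits p σ G : ℝ) - orbits p σ N| ≤ ε * total p G),
      All p X (fun G N _ _ => ∀ k : ℕ, numFixed p (σ ^ k) G = numFixed p (σ ^ k) N)] := by
  tfae_have 1 → 2 := fun h G _ _ P hG => orbits_of_bij (h G P hG)
  tfae_have 2 → 3 := by
    intro h ε hε
    refine ⟨0, fun G _ _ P hG _ => ?_⟩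
    rw [h G P hG, sub_self, abs_zero]
    positivity
  tfae_have 3 → 4 := numFixed_eq hp2 he hσ hX
  tfae_have 4 → 1 := fun h G _ _ P hG => bij_of_numFixed' _ _ (h G P hG)
  tfae_finish

end Pool.Agent.Results.MP_1ae3da_al.OrbitCountsDecide
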