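import Pool.Agent.Q90.WR.Nav

/-!
# The McKay–Galois conjecture for automorphisms of odd order is a statement about parity

`Wr G` is the wreath product of `G` with a group of order two, `WrN j G` the `j`-fold iterated one.
If `P` is a Sylow `p`-subgroup of `G`, `p` odd, then `P × P` is one of `Wr G`, with normalizer
`Wr (N_G(P))`, and if `σ` acts with odd order on `Irr(G)` and fixes `x` characters of degree prime
to `p`, then it fixes `(x² + 3x)/2` such characters of `Wr G`. So a difference `x - y` exactly
divisible by `2^(a+1)` becomes one exactly divisible by `2^a`.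
-/

set_option autoImplicit false

namespace Pool.Agent.Results.MP_1ae3da_al.ParityDecides

open Pool.Agent.Q90.WR

/-- Let `p` be an odd prime and `σ` an automorphism of `ℂ` (for instance one in the group `𝓗`).
(1) Let `G` be a finite group and `P` a Sylow `p`-subgroup such that `σ` permutes the irreducible
characters of `G` and of `N_G(P)` with odd order. There is a bijection
`Irr_{p'}(G) → Irr_{p'}(N_G(P))` commuting with `σ` if and only if for all powers `τ` of `σ` and all
`j` with `2^j ≤ |G|` the numbers of `τ`-fixed characters of degree prime to `p` of the `j`-fold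
iterated wreath product of `G` with `C₂` and of the normalizer of a Sylow `p`-subgroup of it have
the same parity.
(2) Such bijections exist for all such `G` if and only if for all such `G` and all powers `τ` of `σ`
the numbers of `τ`-fixed characters in `Irr_{p'}(G)` and `Irr_{p'}(N_G(P))` have the same
parity. -/
theorem result (p : ℕ) [Fact p.Prime] (hp2 : p ≠ 2) (σ : ℂ ≃+* ℂ) :
    (∀ (G : Type) [Group G] [Finite G] (P : Sylow p G), OddOn σ G →
      OddOn σ (Subgroup.normalizer ((P : Subgroup G) : Set G)) →
      (EquivariantBijection p σ G (Subgroup.normalizer ((P : Subgroup G) : Set G)) ↔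
        ∀ k j : ℕ, 2 ^ j ≤ Nat.card G → ∀ Q : Sylow p (WrN j G),
          numFixed p (σ ^ k) (WrN j G) ≡
            numFixed p (σ ^ k) (Subgroup.normalizer ((Q : Subgroup (WrN j G)) : Set (WrN j G)))
            [MOD 2])) ∧
    ((∀ (G : Type) [Group G] [Finite G] (P : Sylow p G), OddOn σ G →
      OddOn σ (Subgroup.normalizer ((P : Subgroup G) : Set G)) →
      EquivariantBijection p σ G (Subgroup.normalizer ((P : Subgroup G) : Set G))) ↔
    (∀ (G : Type) [Group G] [Finite G] (P : Sylow p G), OddOn σ G →
      OddOn σ (Subgroup.normalizer ((P : Subgroup G) : Set G)) → ∀ k : ℕ,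
      numFixed p (σ ^ k) G ≡
        numFixed p (σ ^ k) (Subgroup.normalizer ((P : Subgroup G) : Set G)) [MOD 2])) :=
  ⟨fun G _ _ P h1 h2 => one_group hp2 G P h1 h2, all_groups hp2⟩

end Pool.Agent.Results.MP_1ae3da_al.ParityDecides
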